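import Mathlib
import Pool.Agent.Y491.BF.T_SH
import Pool.Agent.Y491.BF.Pair

/-!
# Moving an element down and up in a linear extension

`dn a σ` is the number of elements strictly between the last element below `a` and `a`, and `us a σ` the
number of elements strictly between `a` and the first element above `a`.
-/

set_option autoImplicit false
set_option linter.unusedSectionVars false

open Finset
open scoped Classical

namespace Pool.Agent.U396.H2

open Pool.Agent.Y491.BF

variable {α : Type} [Fintype α] [PartialOrder α]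

lemma memf {β : Type*} {p : β → Prop} {inst : DecidablePred p} {s : Finset β} {σ : β} :
    σ ∈ @Finset.filter β p inst s ↔ σ ∈ s ∧ p σ := @Finset.mem_filter β p inst s σ

/-- the elements strictly between the last element below `a` and `a` -/
noncomputable def dnS (a : α) (σ : α ≃ Fin (Fintype.card α)) : Finset α :=
  univ.filter fun z => (σ z : ℕ) < σ a ∧ ∀ w, w < a → (σ w : ℕ) < σ z

/-- the elements strictly between `a` and the first element above `a` -/
noncomputable def usS (a : α) (σ : α ≃ Fin (Fintype.card α)) : Finset α :=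
  univ.filter fun z => (σ a : ℕ) < σ z ∧ ∀ w, a < w → (σ z : ℕ) < σ w

/-- the number of elements strictly between the last element below `a` and `a` -/
noncomputable def dn (a : α) (σ : α ≃ Fin (Fintype.card α)) : ℕ := (dnS a σ).card

/-- the number of elements strictly between `a` and the first element above `a` -/
noncomputable def us (a : α) (σ : α ≃ Fin (Fintype.card α)) : ℕ := (usS a σ).card

lemma mem_dnS {a z : α} {σ : α ≃ Fin (Fintype.card α)} :
    z ∈ dnS a σ ↔ (σ z : ℕ) < σ a ∧ ∀ w, w < a → (σ w : ℕ) < σ z := by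
  simp [dnS]

lemma mem_usS {a z : α} {σ : α ≃ Fin (Fintype.card α)} :
    z ∈ usS a σ ↔ (σ a : ℕ) < σ z ∧ ∀ w, a < w → (σ z : ℕ) < σ w := by
  simp [usS]

lemma val_inj {σ : α ≃ Fin (Fintype.card α)} {x y : α} (h : (σ x : ℕ) = σ y) : x = y :=
  σ.injective (Fin.ext h)

lemma LE_lt {σ : α ≃ Fin (Fintype.card α)} (hσ : σ ∈ Y491.BF.LE α) {x y : α} (h : x < y) :
    (σ x : ℕ) < σ y := (SH.mem_LE.mp hσ) h

lemma exists_pred {a : α} {σ : α ≃ Fin (Fintype.card α)} (h : 0 < dn a σ) :
    ∃ u : α, (σ u : ℕ) + 1 = σ a ∧ u ∈ dnS a σ := by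
  obtain ⟨z, hz⟩ := Finset.card_pos.mp h
  rw [mem_dnS] at hz
  have h1 : (σ a : ℕ) - 1 < Fintype.card α := by have := (σ a).2; omega
  have h2 : ((σ (σ.symm ⟨(σ a : ℕ) - 1, h1⟩) : Fin _) : ℕ) = (σ a : ℕ) - 1 := by simp
  refine ⟨σ.symm ⟨(σ a : ℕ) - 1, h1⟩, by omega, ?_⟩
  rw [mem_dnS]
  refine ⟨by omega, fun w hw => ?_⟩
  have := hz.2 w hw
  omega

lemma exists_succ {a : α} {σ : α ≃ Fin (Fintype.card α)} (h : 0 < us a σ) :
    ∃ u : α, (σ u : ℕ) = σ a + 1 ∧ u ∈ usS a σ := by
  obtain ⟨z, hz⟩ := Finset.card_pos.mp h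
  rw [mem_usS] at hz
  have h1 : (σ a : ℕ) + 1 < Fintype.card α := by have := (σ z).2; omega
  have h2 : ((σ (σ.symm ⟨(σ a : ℕ) + 1, h1⟩) : Fin _) : ℕ) = (σ a : ℕ) + 1 := by simp
  refine ⟨σ.symm ⟨(σ a : ℕ) + 1, h1⟩, by omega, ?_⟩
  rw [mem_usS]
  refine ⟨by omega, fun w hw => ?_⟩
  have := hz.2 w hw
  omega

/-- move `a` down by one place -/
noncomputable def down (a : α) (σ : α ≃ Fin (Fintype.card α)) : α ≃ Fin (Fintype.card α) :=
  SH.sw ((σ a : ℕ) - 1) σ

/-- move `a` up by one place -/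
noncomputable def up (a : α) (σ : α ≃ Fin (Fintype.card α)) : α ≃ Fin (Fintype.card α) :=
  SH.sw (σ a) σ

section down

variable {a u : α} {σ : α ≃ Fin (Fintype.card α)}

lemma down_eq (h : (σ u : ℕ) + 1 = σ a) (z : α) : ((down a σ z : Fin _) : ℕ) =
    if z = u then (σ a : ℕ) else if z = a then (σ a : ℕ) - 1 else σ z := by
  have hn : (σ a : ℕ) - 1 + 1 < Fintype.card α := by have := (σ a).2; omega
  unfold down
  rw [SH.sw_val hn]
  by_cases h1 : z = u
  · subst h1
    rw [if_pos rfl, if_pos (by omega)]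
    omega
  · have h1' : (σ z : ℕ) ≠ (σ a : ℕ) - 1 := fun h2 => h1 (val_inj (σ := σ) (by omega))
    rw [if_neg h1, if_neg h1']
    by_cases h2 : z = a
    · subst h2
      rw [if_pos rfl, if_pos (by omega)]
    · have h2' : (σ z : ℕ) ≠ (σ a : ℕ) - 1 + 1 := fun h3 => h2 (val_inj (σ := σ) (by omega))
      rw [if_neg h2, if_neg h2']

lemma up_eq (h : (σ u : ℕ) = σ a + 1) (z : α) : ((up a σ z : Fin _) : ℕ) =
    if z = u then (σ a : ℕ) else if z = a then (σ a : ℕ) + 1 else σ z := by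
  have hn : (σ a : ℕ) + 1 < Fintype.card α := by have := (σ u).2; omega
  unfold up
  rw [SH.sw_val hn]
  have hau : a ≠ u := by rintro rfl; omega
  by_cases h1 : z = u
  · subst h1
    rw [if_pos rfl, if_neg (by omega), if_pos (by omega)]
  · have h1' : (σ z : ℕ) ≠ (σ a : ℕ) + 1 := fun h2 => h1 (val_inj (σ := σ) (by omega))
    rw [if_neg h1]
    by_cases h2 : z = a
    · subst h2
      rw [if_pos rfl, if_pos rfl]
    · have h2' : (σ z : ℕ) ≠ (σ a : ℕ) := fun h3 => h2 (val_inj (σ := σ) (by omega))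
      rw [if_neg h2, if_neg h2', if_neg h1']

lemma down_LE (hσ : σ ∈ Y491.BF.LE α) (h : 0 < dn a σ) : down a σ ∈ Y491.BF.LE α := by
  obtain ⟨u, hu, hu'⟩ := exists_pred h
  rw [mem_dnS] at hu'
  refine SH.sw_LE hσ ⟨u, a, by omega, by omega, fun h1 => ?_⟩
  exact lt_irrefl _ (hu'.2 u h1)

lemma up_LE (hσ : σ ∈ Y491.BF.LE α) (h : 0 < us a σ) : up a σ ∈ Y491.BF.LE α := by
  obtain ⟨u, hu, hu'⟩ := exists_succ h
  rw [mem_usS] at hu'
  refine SH.sw_LE hσ ⟨a, u, rfl, by omega, fun h1 => ?_⟩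
  exact lt_irrefl _ (hu'.2 u h1)

lemma down_dnS (hu : (σ u : ℕ) + 1 = σ a) (hu' : u ∈ dnS a σ) :
    dnS a (down a σ) = (dnS a σ).erase u := by
  rw [mem_dnS] at hu'
  have hua : u ≠ a := by rintro rfl; omega
  ext z
  rw [mem_dnS, mem_erase, mem_dnS]
  have hw : ∀ w, w < a → ((down a σ w : Fin _) : ℕ) = σ w := by
    intro w hw
    rw [down_eq hu, if_neg, if_neg hw.ne]
    rintro rfl
    exact lt_irrefl _ (hu'.2 w hw)
  have ha : ((down a σ a : Fin _) : ℕ) = σ a - 1 := by
    rw [down_eq hu, if_neg hua.symm, if_pos rfl]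
  rw [ha, down_eq hu]
  constructor
  · rintro ⟨h1, h2⟩
    by_cases hz : z = u
    · subst hz; rw [if_pos rfl] at h1; omega
    · rw [if_neg hz] at h1 h2
      by_cases hza : z = a
      · subst hza; rw [if_pos rfl] at h1; omega
      · rw [if_neg hza] at h1 h2
        refine ⟨hz, by omega, fun w hw' => ?_⟩
        have := h2 w hw'
        rwa [hw w hw'] at this
  · rintro ⟨hz, h1, h2⟩
    have hza : z ≠ a := by rintro rfl; omega
    rw [if_neg hz, if_neg hza]
    have h3 : (σ z : ℕ) ≠ σ u := fun h => hz (val_inj h)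
    refine ⟨by omega, fun w hw' => ?_⟩
    rw [hw w hw']
    exact h2 w hw'

lemma down_usS (hσ : σ ∈ Y491.BF.LE α) (hu : (σ u : ℕ) + 1 = σ a) (hu' : u ∈ dnS a σ) :
    usS a (down a σ) = insert u (usS a σ) := by
  rw [mem_dnS] at hu'
  have hua : u ≠ a := by rintro rfl; omega
  ext z
  rw [mem_usS, mem_insert, mem_usS]
  have hw : ∀ w, a < w → ((down a σ w : Fin _) : ℕ) = σ w := by
    intro w hw
    have h1 := LE_lt hσ hw
    rw [down_eq hu, if_neg, if_neg hw.ne']
    rintro rfl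
    omega
  have ha : ((down a σ a : Fin _) : ℕ) = σ a - 1 := by
    rw [down_eq hu, if_neg hua.symm, if_pos rfl]
  rw [ha, down_eq hu]
  constructor
  · rintro ⟨h1, h2⟩
    by_cases hz : z = u
    · exact Or.inl hz
    · right
      rw [if_neg hz] at h1 h2
      by_cases hza : z = a
      · subst hza; rw [if_pos rfl] at h1; omega
      · rw [if_neg hza] at h1 h2
        have h3 : (σ z : ℕ) ≠ σ a := fun h => hza (val_inj h)
        refine ⟨by omega, fun w hw' => ?_⟩
        have := h2 w hw'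
        rwa [hw w hw'] at this
  · rintro (hz | ⟨h1, h2⟩)
    · subst hz
      rw [if_pos rfl]
      refine ⟨by omega, fun w hw' => ?_⟩
      rw [hw w hw']
      exact LE_lt hσ hw'
    · have hza : z ≠ a := by rintro rfl; omega
      have hz : z ≠ u := by rintro rfl; omega
      rw [if_neg hz, if_neg hza]
      refine ⟨by omega, fun w hw' => ?_⟩
      rw [hw w hw']
      exact h2 w hw'

lemma up_usS (hu : (σ u : ℕ) = σ a + 1) (hu' : u ∈ usS a σ) :
    usS a (up a σ) = (usS a σ).erase u := by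
  rw [mem_usS] at hu'
  have hua : u ≠ a := by rintro rfl; omega
  ext z
  rw [mem_usS, mem_erase, mem_usS]
  have hw : ∀ w, a < w → ((up a σ w : Fin _) : ℕ) = σ w := by
    intro w hw
    rw [up_eq hu, if_neg, if_neg hw.ne']
    rintro rfl
    exact lt_irrefl _ (hu'.2 w hw)
  have ha : ((up a σ a : Fin _) : ℕ) = σ a + 1 := by
    rw [up_eq hu, if_neg hua.symm, if_pos rfl]
  rw [ha, up_eq hu]
  constructor
  · rintro ⟨h1, h2⟩
    by_cases hz : z = u
    · subst hz; rw [if_pos rfl] at h1; omega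
    · rw [if_neg hz] at h1 h2
      by_cases hza : z = a
      · subst hza; rw [if_pos rfl] at h1; omega
      · rw [if_neg hza] at h1 h2
        refine ⟨hz, by omega, fun w hw' => ?_⟩
        have := h2 w hw'
        rwa [hw w hw'] at this
  · rintro ⟨hz, h1, h2⟩
    have hza : z ≠ a := by rintro rfl; omega
    rw [if_neg hz, if_neg hza]
    have h3 : (σ z : ℕ) ≠ σ u := fun h => hz (val_inj h)
    refine ⟨by omega, fun w hw' => ?_⟩
    rw [hw w hw']
    exact h2 w hw'

lemma up_dnS (hσ : σ ∈ Y491.BF.LE α) (hu : (σ u : ℕ) = σ a + 1) (hu' : u ∈ usS a σ) :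
    dnS a (up a σ) = insert u (dnS a σ) := by
  rw [mem_usS] at hu'
  have hua : u ≠ a := by rintro rfl; omega
  ext z
  rw [mem_dnS, mem_insert, mem_dnS]
  have hw : ∀ w, w < a → ((up a σ w : Fin _) : ℕ) = σ w := by
    intro w hw
    have h1 := LE_lt hσ hw
    rw [up_eq hu, if_neg, if_neg hw.ne]
    rintro rfl
    omega
  have ha : ((up a σ a : Fin _) : ℕ) = σ a + 1 := by
    rw [up_eq hu, if_neg hua.symm, if_pos rfl]
  rw [ha, up_eq hu]
  constructor
  · rintro ⟨h1, h2⟩
    by_cases hz : z = u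
    · exact Or.inl hz
    · right
      rw [if_neg hz] at h1 h2
      by_cases hza : z = a
      · subst hza; rw [if_pos rfl] at h1; omega
      · rw [if_neg hza] at h1 h2
        have h3 : (σ z : ℕ) ≠ σ a := fun h => hza (val_inj h)
        refine ⟨by omega, fun w hw' => ?_⟩
        have := h2 w hw'
        rwa [hw w hw'] at this
  · rintro (hz | ⟨h1, h2⟩)
    · subst hz
      rw [if_pos rfl]
      refine ⟨by omega, fun w hw' => ?_⟩
      rw [hw w hw']
      exact LE_lt hσ hw'
    · have hza : z ≠ a := by rintro rfl; omega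
      have hz : z ≠ u := by rintro rfl; omega
      rw [if_neg hz, if_neg hza]
      refine ⟨by omega, fun w hw' => ?_⟩
      rw [hw w hw']
      exact h2 w hw'

lemma down_dn (h : 0 < dn a σ) : dn a (down a σ) + 1 = dn a σ := by
  obtain ⟨u, hu, hu'⟩ := exists_pred h
  unfold dn
  rw [down_dnS hu hu']
  exact Finset.card_erase_add_one hu'

lemma down_us (hσ : σ ∈ Y491.BF.LE α) (h : 0 < dn a σ) : us a (down a σ) = us a σ + 1 := by
  obtain ⟨u, hu, hu'⟩ := exists_pred h
  unfold us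
  rw [down_usS hσ hu hu', Finset.card_insert_of_notMem]
  rw [mem_usS]
  omega

lemma up_us (h : 0 < us a σ) : us a (up a σ) + 1 = us a σ := by
  obtain ⟨u, hu, hu'⟩ := exists_succ h
  unfold us
  rw [up_usS hu hu']
  exact Finset.card_erase_add_one hu'

lemma up_dn (hσ : σ ∈ Y491.BF.LE α) (h : 0 < us a σ) : dn a (up a σ) = dn a σ + 1 := by
  obtain ⟨u, hu, hu'⟩ := exists_succ h
  unfold dn
  rw [up_dnS hσ hu hu', Finset.card_insert_of_notMem]
  rw [mem_dnS]
  omega

lemma down_val (h : 0 < dn a σ) : ((down a σ a : Fin _) : ℕ) = σ a - 1 ∧ 1 ≤ (σ a : ℕ) := by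
  obtain ⟨u, hu, hu'⟩ := exists_pred h
  have hua : u ≠ a := by rintro rfl; omega
  rw [down_eq hu, if_neg hua.symm, if_pos rfl]
  exact ⟨rfl, by omega⟩

lemma up_val (h : 0 < us a σ) : ((up a σ a : Fin _) : ℕ) = σ a + 1 := by
  obtain ⟨u, hu, hu'⟩ := exists_succ h
  have hua : u ≠ a := by rintro rfl; omega
  rw [up_eq hu, if_neg hua.symm, if_pos rfl]

lemma up_down (h : 0 < dn a σ) : up a (down a σ) = σ := by
  have h1 := down_val h
  unfold up
  rw [h1.1]
  unfold down
  rw [SH.sw_sw]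

lemma down_up (h : 0 < us a σ) : down a (up a σ) = σ := by
  have h1 := up_val h
  unfold down
  rw [h1, Nat.add_sub_cancel]
  unfold up
  rw [SH.sw_sw]

lemma down_val_of_lt (h : 0 < dn a σ) {x : α} (hx : (σ a : ℕ) < σ x) :
    ((down a σ x : Fin _) : ℕ) = σ x := by
  obtain ⟨u, hu, hu'⟩ := exists_pred h
  rw [down_eq hu, if_neg, if_neg]
  · rintro rfl; omega
  · rintro rfl; omega

end down

/-- moving `a` down -/
lemma nn_dn (a : α) (i j : ℕ) :
    nn (fun σ => dn a σ = i + 1 ∧ us a σ = j) = nn (fun σ => dn a σ = i ∧ us a σ = j + 1) := by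
  refine SH.nn_bij (down a) (up a) ?_ ?_ ?_ ?_
  · rintro σ hσ ⟨h1, h2⟩
    have h0 : 0 < dn a σ := by omega
    refine ⟨down_LE hσ h0, ?_, ?_⟩
    · have := down_dn h0; omega
    · rw [down_us hσ h0, h2]
  · rintro σ hσ ⟨h1, h2⟩
    have h0 : 0 < us a σ := by omega
    refine ⟨up_LE hσ h0, ?_, ?_⟩
    · rw [up_dn hσ h0, h1]
    · have := up_us h0; omega
  · rintro σ hσ ⟨h1, h2⟩
    exact up_down (by omega)
  · rintro σ hσ ⟨h1, h2⟩
    exact down_up (by omega)

lemma nn_dn_sum (a : α) (i j : ℕ) :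
    nn (fun σ => dn a σ = i ∧ us a σ = j) = nn (fun σ => dn a σ = 0 ∧ us a σ = i + j) := by
  induction i generalizing j with
  | zero => rw [Nat.zero_add]
  | succ i ih => rw [nn_dn, ih, Nat.add_right_comm, Nat.add_assoc]

lemma nn_dn_symm (a : α) (i j : ℕ) :
    nn (fun σ => dn a σ = i ∧ us a σ = j) = nn (fun σ => dn a σ = j ∧ us a σ = i) := by
  rw [nn_dn_sum a i j, nn_dn_sum a j i, Nat.add_comm]

/-- the law of `dn a` is nonincreasing -/
lemma nn_dn_le (a : α) (i : ℕ) : nn (fun σ => dn a σ = i + 1) ≤ nn (fun σ => dn a σ = i) := by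
  refine SH.nn_inj (down a) ?_ ?_
  · intro σ hσ h1
    have h0 : 0 < dn a σ := by omega
    refine ⟨down_LE hσ h0, ?_⟩
    have := down_dn h0; omega
  · intro σ hσ h1 τ hτ h2 h
    rw [← up_down (a := a) (σ := σ) (by omega), h, up_down (by omega)]

lemma nn_dn_zero (a : α) (i : ℕ) : nn (fun σ => dn a σ = i) ≤ nn (fun σ => dn a σ = 0) := by
  induction i with
  | zero => exact le_rfl
  | succ i ih => exact (nn_dn_le a i).trans ih

/-- moving `y` down away from `x` -/
lemma nn_gap_dn (x y : α) (i : ℕ) (e : ℤ) (he : 1 ≤ e) :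
    nn (fun σ => dn y σ = i + 1 ∧ gap x y σ = -e) ≤
      nn (fun σ => dn y σ = i ∧ gap x y σ = -(e + 1)) := by
  refine SH.nn_inj (down y) ?_ ?_
  · rintro σ hσ ⟨h1, h2⟩
    have h0 : 0 < dn y σ := by omega
    unfold gap at h2
    have hx := down_val_of_lt (a := y) (σ := σ) h0 (x := x) (by omega)
    have hy := down_val (a := y) (σ := σ) h0
    refine ⟨down_LE hσ h0, ?_, ?_⟩
    · have := down_dn h0; omega
    · unfold gap; rw [hx, hy.1]; omega
  · rintro σ hσ ⟨h1, _⟩ τ hτ ⟨h2, _⟩ h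
    rw [← up_down (a := y) (σ := σ) (by omega), h, up_down (by omega)]

lemma nn_gap_dn0 (x y : α) (i : ℕ) :
    nn (fun σ => dn y σ = i ∧ gap x y σ = -1) ≤
      nn (fun σ => dn y σ = 0 ∧ gap x y σ = -((i : ℤ) + 1)) := by
  have key : ∀ (i : ℕ) (e : ℤ), 1 ≤ e → nn (fun σ => dn y σ = i ∧ gap x y σ = -e) ≤
      nn (fun σ => dn y σ = 0 ∧ gap x y σ = -(e + i)) := by
    intro i
    induction i with
    | zero => intro e he; simp
    | succ i ih =>
      intro e he
      refine (nn_gap_dn x y i e he).trans ((ih (e + 1) (by omega)).trans (le_of_eq ?_))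
      congr 1
      funext σ
      apply propext
      push_cast
      constructor
      · rintro ⟨h1, h2⟩; exact ⟨h1, by rw [h2]; ring⟩
      · rintro ⟨h1, h2⟩; exact ⟨h1, by rw [h2]; ring⟩
  refine (key i 1 le_rfl).trans (le_of_eq ?_)
  congr 1
  funext σ
  apply propext
  constructor
  · rintro ⟨h1, h2⟩; exact ⟨h1, by rw [h2]; ring⟩
  · rintro ⟨h1, h2⟩; exact ⟨h1, by rw [h2]; ring⟩

lemma dn_lt (a : α) (σ : α ≃ Fin (Fintype.card α)) : dn a σ < Fintype.card α := by
  have h1 : dnS a σ ⊆ univ.erase a := by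
    intro z hz
    rw [mem_dnS] at hz
    rw [mem_erase]
    refine ⟨?_, mem_univ _⟩
    rintro rfl
    omega
  have h2 := Finset.card_le_card h1
  rw [Finset.card_erase_of_mem (mem_univ _), Finset.card_univ] at h2
  have : 0 < Fintype.card α := Fintype.card_pos_iff.mpr ⟨a⟩
  unfold dn
  omega

lemma nn_split (p : (α ≃ Fin (Fintype.card α)) → Prop) (X : (α ≃ Fin (Fintype.card α)) → ℕ) (M : ℕ)
    (hX : ∀ σ, X σ < M) : nn p = ∑ i ∈ range M, nn (fun σ => X σ = i ∧ p σ) := by
  unfold nn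
  rw [Finset.card_eq_sum_card_fiberwise (f := X) (t := range M)
    (fun σ _ => by simpa using hX σ)]
  refine Finset.sum_congr rfl fun i _ => ?_
  congr 1
  ext σ
  simp only [mem_filter]
  tauto

/-- the probability that `y` comes immediately before `x` is at most the probability that `y` comes
immediately after the last element below `y` -/
lemma nn_adj_le (x y : α) : nn (fun σ => gap x y σ = -1) ≤ nn (fun σ => dn y σ = 0) := by
  rw [nn_split (fun σ => gap x y σ = -1) (dn y) _ (dn_lt y)]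
  refine (Finset.sum_le_sum fun i _ => nn_gap_dn0 x y i).trans ?_
  unfold nn
  rw [← Finset.card_biUnion]
  · refine Finset.card_le_card fun σ hσ => ?_
    rw [Finset.mem_biUnion] at hσ
    obtain ⟨i, _, hi⟩ := hσ
    have h1 := memf.mp hi
    exact memf.mpr ⟨h1.1, h1.2.1⟩
  · intro i _ j _ hij
    refine Finset.disjoint_left.mpr ?_
    intro σ h1 h2
    have h3 := (memf.mp h1).2.2
    have h4 := (memf.mp h2).2.2
    apply hij
    have := h3.symm.trans h4
    omega

/-- gaps decrease if `y` can be moved down -/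
lemma nn_gap_le (x y : α) (h : ∀ w, w < y → w < x) (k : ℤ) (hk : 1 ≤ k) :
    nn (fun σ => gap x y σ = k + 1) ≤ nn (fun σ => gap x y σ = k) := by
  have h1 := SH.card_M2 x y k hk
  have h2 : nn (fun σ => gap x y σ = k + 1) ≤
      nn (fun σ => gap x y σ = k + 1 ∧ SH.D ((σ y : ℕ) - 1) σ) := by
    refine SH.nn_mono fun σ hσ hg => ⟨hg, ?_⟩
    unfold gap at hg
    have h3 : (σ y : ℕ) - 1 < Fintype.card α := by have := (σ y).2; omega
    have h4 : ((σ (σ.symm ⟨(σ y : ℕ) - 1, h3⟩) : Fin _) : ℕ) = (σ y : ℕ) - 1 := by simp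
    refine ⟨σ.symm ⟨(σ y : ℕ) - 1, h3⟩, y, h4, by omega, fun h5 => ?_⟩
    have h6 := LE_lt hσ (h _ h5)
    omega
  rw [h1] at h2
  exact h2.trans (SH.nn_mono fun σ _ hh => hh.1)

lemma nn_gap_le_one (x y : α) (h : ∀ w, w < y → w < x) (k : ℕ) :
    nn (fun σ => gap x y σ = (k : ℤ) + 1) ≤ nn (fun σ => gap x y σ = 1) := by
  induction k with
  | zero => exact le_of_eq (by simp)
  | succ k ih =>
    refine le_trans ?_ ih
    push_cast
    exact nn_gap_le x y h ((k : ℤ) + 1) (by omega)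

end Pool.Agent.U396.H2
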