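import Mathlib
import Pool.Agent.U396.H2.Move

/-!
# Lower bounds of mean values from upper bounds of the point masses
-/

set_option autoImplicit false
set_option linter.unusedSectionVars false

open Finset
open scoped Classical

namespace Pool.Agent.U396.H2

open Pool.Agent.Y491.BF

lemma bath_num (n : ℕ → ℝ) (C : ℝ) (h0 : ∀ j, 0 ≤ n j) (h1 : ∀ j, n j ≤ C) (M : ℕ) :
    (∑ j ∈ range M, n j) ^ 2 ≤
      C * (2 * ∑ j ∈ range M, ((j : ℝ) + 1) * n j - ∑ j ∈ range M, n j) := by
  induction M with
  | zero => simp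
  | succ M ih =>
    rw [sum_range_succ, sum_range_succ]
    have hP : ∑ j ∈ range M, n j ≤ M * C := by
      calc ∑ j ∈ range M, n j ≤ ∑ _j ∈ range M, C := sum_le_sum fun j _ => h1 j
        _ = M * C := by simp
    have hn := h0 M
    have hC := h1 M
    have h2 := mul_nonneg hn (show 0 ≤ 2 * (M * C - ∑ j ∈ range M, n j) + (C - n M) by linarith)
    nlinarith

lemma bath {Ω : Type*} (s : Finset Ω) (X : Ω → ℕ) (C : ℝ)
    (h : ∀ j, ((s.filter fun ω => X ω = j + 1).card : ℝ) ≤ C) :
    ((s.filter fun ω => 0 < X ω).card : ℝ) ^ 2 ≤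
      C * (2 * ∑ ω ∈ s, (X ω : ℝ) - (s.filter fun ω => 0 < X ω).card) := by
  have hM : ∀ ω ∈ s, X ω ≤ s.sup X := fun ω hω => Finset.le_sup hω
  set M := s.sup X
  have e1 : ((s.filter fun ω => 0 < X ω).card : ℝ) =
      ∑ j ∈ range M, ((s.filter fun ω => X ω = j + 1).card : ℝ) := by
    have h1 : ∀ ω ∈ s, (if 0 < X ω then (1 : ℝ) else 0) =
        ∑ j ∈ range M, if X ω = j + 1 then (1 : ℝ) else 0 := by
      intro ω hω
      have h2 := hM ω hω
      by_cases h3 : 0 < X ω
      · rw [if_pos h3, Finset.sum_eq_single (X ω - 1)]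
        · rw [if_pos (by omega)]
        · intro j _ hj
          rw [if_neg (by omega)]
        · intro h4
          exact absurd (mem_range.mpr (by omega)) h4
      · rw [if_neg h3, Finset.sum_eq_zero]
        intro j _
        rw [if_neg (by omega)]
    rw [Finset.card_filter]
    push_cast
    rw [Finset.sum_congr rfl h1, Finset.sum_comm]
    refine Finset.sum_congr rfl fun j _ => ?_
    rw [Finset.card_filter]
    push_cast
    rfl
  have e2 : ∑ ω ∈ s, (X ω : ℝ) =
      ∑ j ∈ range M, ((j : ℝ) + 1) * ((s.filter fun ω => X ω = j + 1).card : ℝ) := by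
    have h1 : ∀ ω ∈ s, (X ω : ℝ) =
        ∑ j ∈ range M, if X ω = j + 1 then ((j : ℝ) + 1) else 0 := by
      intro ω hω
      have h2 := hM ω hω
      by_cases h3 : 0 < X ω
      · rw [Finset.sum_eq_single (X ω - 1)]
        · rw [if_pos (by omega)]
          have : ((X ω - 1 : ℕ) : ℝ) = (X ω : ℝ) - 1 := by
            rw [Nat.cast_sub (by omega)]; norm_num
          rw [this]; ring
        · intro j _ hj
          rw [if_neg (by omega)]
        · intro h4
          exact absurd (mem_range.mpr (by omega)) h4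
      · have h4 : X ω = 0 := by omega
        rw [h4, Finset.sum_eq_zero]
        · simp
        · intro j _
          rw [if_neg (by omega)]
    rw [Finset.sum_congr rfl h1, Finset.sum_comm]
    refine Finset.sum_congr rfl fun j _ => ?_
    rw [Finset.card_filter]
    push_cast
    rw [Finset.mul_sum]
    refine Finset.sum_congr rfl fun ω _ => ?_
    split_ifs <;> simp
  rw [e1, e2]
  exact bath_num _ C (fun j => by positivity) h M

variable {α : Type} [Fintype α] [PartialOrder α]

lemma bath_gap (x y : α) (h : ∀ w, w < y → w < x) :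
    (nn (fun σ => 0 < gap x y σ) : ℝ) ^ 2 ≤
      (nn (fun σ => gap x y σ = 1) : ℝ) * (2 * Tp x y - nn (fun σ => 0 < gap x y σ)) := by
  have h1 := bath (Y491.BF.LE α) (fun σ => (gap x y σ).toNat) (nn (fun σ => gap x y σ = 1) : ℝ) (by
    intro j
    have h2 := nn_gap_le_one x y h j
    have h3 : ((Y491.BF.LE α).filter fun σ => (gap x y σ).toNat = j + 1).card =
        nn (fun σ => gap x y σ = (j : ℤ) + 1) := by
      unfold nn
      congr 1
      ext σ
      rw [memf, memf]
      refine and_congr_right fun _ => ?_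
      omega
    rw [h3]
    exact_mod_cast h2)
  have e1 : ((Y491.BF.LE α).filter fun σ => 0 < (gap x y σ).toNat).card =
      nn (fun σ => 0 < gap x y σ) := by
    unfold nn
    congr 1
    ext σ
    rw [memf, memf]
    refine and_congr_right fun _ => ?_
    omega
  have e2 : ∑ σ ∈ Y491.BF.LE α, (((gap x y σ).toNat : ℕ) : ℝ) = Tp x y := by
    unfold Tp
    refine Finset.sum_congr rfl fun σ _ => ?_
    have h4 : (((gap x y σ).toNat : ℕ) : ℤ) = max (gap x y σ) 0 := Int.toNat_eq_max _
    have h5 : (((gap x y σ).toNat : ℕ) : ℝ) = ((((gap x y σ).toNat : ℕ) : ℤ) : ℝ) := by push_cast; rfl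
    rw [h5, h4]
    push_cast
    rfl
  rw [e1, e2] at h1
  exact h1

lemma bath_dn (a : α) :
    ((Y491.BF.LE α).card : ℝ) ^ 2 ≤ (nn (fun σ => dn a σ = 0) : ℝ) *
      (2 * ∑ σ ∈ Y491.BF.LE α, ((dn a σ : ℝ) + 1) - (Y491.BF.LE α).card) := by
  have h1 := bath (Y491.BF.LE α) (fun σ => dn a σ + 1) (nn (fun σ => dn a σ = 0) : ℝ) (by
    intro j
    have h2 := nn_dn_zero a j
    have h3 : ((Y491.BF.LE α).filter fun σ => dn a σ + 1 = j + 1).card =
        nn (fun σ => dn a σ = j) := by
      unfold nn
      congr 1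
      ext σ
      rw [memf, memf]
      refine and_congr_right fun _ => ?_
      omega
    rw [h3]
    exact_mod_cast h2)
  have e1 : ((Y491.BF.LE α).filter fun σ => 0 < dn a σ + 1) = Y491.BF.LE α := by
    rw [Finset.filter_eq_self]
    intro σ _
    omega
  rw [e1] at h1
  push_cast at h1
  exact h1

end Pool.Agent.U396.H2
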