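import Mathlib
import Pool.Agent.U396.H2.Bath
import Pool.Agent.Y491.BF.T_ASY
import Pool.Agent.Y491.BF.T_L1

/-!
# Elements with the same lower elements
-/

set_option autoImplicit false
set_option linter.unusedSectionVars false

open Finset
open scoped Classical

namespace Pool.Agent.U396.H2

open Pool.Agent.Y491.BF

variable {α : Type} [Fintype α] [PartialOrder α]

/-- the number of elements incomparable to `a` -/
noncomputable def inc (a : α) : ℕ := (univ.filter fun z : α => ¬ z ≤ a ∧ ¬ a ≤ z).card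

lemma dn_add_us_le {a : α} {σ : α ≃ Fin (Fintype.card α)} (hσ : σ ∈ Y491.BF.LE α) :
    dn a σ + us a σ ≤ inc a := by
  unfold dn us inc
  rw [← Finset.card_union_of_disjoint]
  · refine Finset.card_le_card fun z hz => ?_
    rw [mem_union, mem_dnS, mem_usS] at hz
    rw [mem_filter]
    refine ⟨mem_univ _, ?_⟩
    rcases hz with ⟨h1, h2⟩ | ⟨h1, h2⟩
    · refine ⟨fun h => ?_, fun h => ?_⟩
      · rcases h.lt_or_eq with h3 | rfl
        · exact lt_irrefl _ (h2 z h3)
        · exact lt_irrefl _ h1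
      · rcases h.lt_or_eq with h3 | rfl
        · have := LE_lt hσ h3; omega
        · exact lt_irrefl _ h1
    · refine ⟨fun h => ?_, fun h => ?_⟩
      · rcases h.lt_or_eq with h3 | rfl
        · have := LE_lt hσ h3; omega
        · exact lt_irrefl _ h1
      · rcases h.lt_or_eq with h3 | rfl
        · exact lt_irrefl _ (h2 z h3)
        · exact lt_irrefl _ h1
  · rw [Finset.disjoint_left]
    intro z hz hz'
    rw [mem_dnS] at hz
    rw [mem_usS] at hz'
    omega

lemma us_lt (a : α) (σ : α ≃ Fin (Fintype.card α)) : us a σ < Fintype.card α := by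
  have h1 : usS a σ ⊆ univ.erase a := by
    intro z hz
    rw [mem_usS] at hz
    rw [mem_erase]
    refine ⟨?_, mem_univ _⟩
    rintro rfl
    omega
  have h2 := Finset.card_le_card h1
  rw [Finset.card_erase_of_mem (mem_univ _), Finset.card_univ] at h2
  have : 0 < Fintype.card α := Fintype.card_pos_iff.mpr ⟨a⟩
  unfold us
  omega

lemma sum_dn_us (a : α) (F : ℕ → ℕ → ℝ) :
    ∑ σ ∈ Y491.BF.LE α, F (dn a σ) (us a σ) =
      ∑ i ∈ range (Fintype.card α), ∑ j ∈ range (Fintype.card α),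
        F i j * (nn (fun σ => dn a σ = i ∧ us a σ = j) : ℝ) := by
  have h1 : ∀ σ ∈ Y491.BF.LE α, F (dn a σ) (us a σ) =
      ∑ i ∈ range (Fintype.card α), ∑ j ∈ range (Fintype.card α),
        if dn a σ = i ∧ us a σ = j then F i j else 0 := by
    intro σ _
    rw [Finset.sum_eq_single (dn a σ), Finset.sum_eq_single (us a σ)]
    · rw [if_pos ⟨rfl, rfl⟩]
    · intro j _ hj
      rw [if_neg]
      rintro ⟨_, h⟩
      exact hj h.symm
    · intro h
      exact absurd (mem_range.mpr (us_lt a σ)) h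
    · intro i _ hi
      refine Finset.sum_eq_zero fun j _ => ?_
      rw [if_neg]
      rintro ⟨h, _⟩
      exact hi h.symm
    · intro h
      exact absurd (mem_range.mpr (dn_lt a σ)) h
  rw [Finset.sum_congr rfl h1, Finset.sum_comm]
  refine Finset.sum_congr rfl fun i _ => ?_
  rw [Finset.sum_comm]
  refine Finset.sum_congr rfl fun j _ => ?_
  rw [nn_eq_sum, Finset.mul_sum]
  refine Finset.sum_congr rfl fun σ _ => ?_
  split_ifs <;> simp

lemma sum_dn_eq (a : α) :
    ∑ σ ∈ Y491.BF.LE α, (dn a σ : ℝ) = ∑ σ ∈ Y491.BF.LE α, (us a σ : ℝ) := by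
  rw [sum_dn_us a (fun i _ => (i : ℝ)), sum_dn_us a (fun _ j => (j : ℝ)), Finset.sum_comm]
  refine Finset.sum_congr rfl fun i _ => ?_
  refine Finset.sum_congr rfl fun j _ => ?_
  rw [nn_dn_symm]

lemma mean_dn_le (a : α) : 2 * mean (fun σ => (dn a σ : ℝ)) ≤ inc a := by
  have h1 : mean (fun σ : α ≃ Fin (Fintype.card α) => (dn a σ : ℝ)) =
      mean (fun σ => (us a σ : ℝ)) := by
    unfold mean
    rw [sum_dn_eq]
  have h2 : mean (fun σ : α ≃ Fin (Fintype.card α) => (dn a σ : ℝ) + (us a σ : ℝ)) ≤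
      mean (fun _ : α ≃ Fin (Fintype.card α) => (inc a : ℝ)) :=
    mean_mono fun σ hσ => by exact_mod_cast dn_add_us_le hσ
  rw [mean_add, mean_const, ← h1] at h2
  linarith

/-- the probability that `a` comes immediately after the last element below it -/
noncomputable def ff (a : α) : ℝ := pp (fun σ => dn a σ = 0)

/-- the mean number of elements between the last element below `a` and `a` -/
noncomputable def hh (a : α) : ℝ := mean (fun σ => (dn a σ : ℝ))

lemma ff_pos (a : α) : 0 < ff a := by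
  have h := bath_dn a
  have hN := Npos (α := α)
  unfold ff pp
  by_contra hcon
  have h0 : (nn (fun σ : α ≃ Fin (Fintype.card α) => dn a σ = 0) : ℝ) = 0 := by
    by_contra h1
    have h2 : (0 : ℝ) < nn (fun σ : α ≃ Fin (Fintype.card α) => dn a σ = 0) :=
      lt_of_le_of_ne (by positivity) (Ne.symm h1)
    exact hcon (by positivity)
  rw [h0, zero_mul] at h
  have : (0 : ℝ) < ((Y491.BF.LE α).card : ℝ) ^ 2 := by positivity
  linarith

/-- the mean value is at least the one of the uniform distribution -/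
lemma hh_ge (a : α) : 1 / ff a - 1 ≤ 2 * hh a := by
  have h := bath_dn a
  have hN := Npos (α := α)
  have hf := ff_pos a
  have e1 : (nn (fun σ : α ≃ Fin (Fintype.card α) => dn a σ = 0) : ℝ) =
      ff a * (Y491.BF.LE α).card := by
    unfold ff pp
    field_simp
  have e2 : ∑ σ ∈ Y491.BF.LE α, ((dn a σ : ℝ) + 1) = (hh a + 1) * (Y491.BF.LE α).card := by
    unfold hh mean
    rw [Finset.sum_add_distrib]
    simp only [Finset.sum_const, nsmul_eq_mul, mul_one]
    field_simp
  rw [e1, e2] at h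
  have h2 : (1 : ℝ) ≤ ff a * (2 * hh a + 1) := by
    have h3 : ((Y491.BF.LE α).card : ℝ) ^ 2 * 1 ≤
        ((Y491.BF.LE α).card : ℝ) ^ 2 * (ff a * (2 * hh a + 1)) := by
      nlinarith
    exact le_of_mul_le_mul_left h3 (by positivity)
  have h4 : 1 / ff a ≤ 2 * hh a + 1 := by
    rw [div_le_iff₀ hf]
    linarith
  linarith

/-- the position is the number of elements before -/
lemma card_before (y : α) (σ : α ≃ Fin (Fintype.card α)) :
    (univ.filter fun z : α => (σ z : ℕ) < σ y).card = (σ y : ℕ) := by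
  have h : (univ.filter fun z : α => (σ z : ℕ) < σ y) = (Finset.Iio (σ y)).map σ.symm.toEmbedding := by
    ext z
    rw [mem_filter, Finset.mem_map]
    constructor
    · rintro ⟨_, h⟩
      exact ⟨σ z, Finset.mem_Iio.mpr h, by simp⟩
    · rintro ⟨i, hi, rfl⟩
      rw [Finset.mem_Iio] at hi
      refine ⟨mem_univ _, ?_⟩
      simpa using hi
  rw [h, Finset.card_map, Fin.card_Iio]

lemma pos_eq (y : α) {σ : α ≃ Fin (Fintype.card α)} (hσ : σ ∈ Y491.BF.LE α) :
    (σ y : ℕ) = dn y σ + (univ.filter fun z : α => ∃ w, w < y ∧ (σ z : ℕ) ≤ σ w).card := by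
  unfold dn
  rw [← Finset.card_union_of_disjoint, ← card_before y σ]
  · congr 1
    ext z
    rw [mem_union, mem_dnS, mem_filter, mem_filter]
    constructor
    · rintro ⟨_, h⟩
      by_cases h2 : ∃ w, w < y ∧ (σ z : ℕ) ≤ σ w
      · exact Or.inr ⟨mem_univ _, h2⟩
      · push Not at h2
        exact Or.inl ⟨h, h2⟩
    · rintro (⟨h, _⟩ | ⟨_, w, hw, h⟩)
      · exact ⟨mem_univ _, h⟩
      · exact ⟨mem_univ _, lt_of_le_of_lt h (LE_lt hσ hw)⟩
  · rw [Finset.disjoint_left]
    intro z hz hz'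
    rw [mem_dnS] at hz
    rw [mem_filter] at hz'
    obtain ⟨w, hw, h⟩ := hz'.2
    have := hz.2 w hw
    omega

lemma HH_hh {x y : α} (h : ∀ w, w < x ↔ w < y) : HH y - HH x = hh y - hh x := by
  have h1 : ∀ σ ∈ Y491.BF.LE α, ((σ y : ℕ) : ℝ) - ((σ x : ℕ) : ℝ) = (dn y σ : ℝ) - dn x σ := by
    intro σ hσ
    have h2 := pos_eq y hσ
    have h3 := pos_eq x hσ
    have h4 : (univ.filter fun z : α => ∃ w, w < y ∧ (σ z : ℕ) ≤ σ w) =
        (univ.filter fun z : α => ∃ w, w < x ∧ (σ z : ℕ) ≤ σ w) := by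
      simp only [h]
    rw [h4] at h2
    have h5 : (σ y : ℕ) + dn x σ = (σ x : ℕ) + dn y σ := by omega
    have h6 : ((σ y : ℕ) : ℝ) + dn x σ = ((σ x : ℕ) : ℝ) + dn y σ := by exact_mod_cast h5
    linarith
  unfold HH hh mean
  rw [← sub_div, ← sub_div, ← Finset.sum_sub_distrib, ← Finset.sum_sub_distrib,
    Finset.sum_congr rfl h1]

lemma sum_ff_le (A : Finset α) (hA : ∀ a ∈ A, ∀ a' ∈ A, ∀ w, w < a ↔ w < a') :
    ∑ a ∈ A, ff a ≤ 1 := by
  have h1 : ∑ a ∈ A, ff a = mean (fun σ => ∑ a ∈ A, if dn a σ = 0 then (1 : ℝ) else 0) := by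
    unfold ff
    rw [Finset.sum_congr rfl fun a _ => (mean_ind (fun σ => dn a σ = 0)).symm]
    unfold mean
    rw [← Finset.sum_div, Finset.sum_comm]
    congr 1
    refine Finset.sum_congr rfl fun σ _ => Finset.sum_congr rfl fun a _ => ?_
    by_cases h : dn a σ = 0
    · rw [if_pos h, if_pos h]
    · rw [if_neg h, if_neg h]
  rw [h1]
  have h2 : mean (fun σ : α ≃ Fin (Fintype.card α) =>
      ∑ a ∈ A, if dn a σ = 0 then (1 : ℝ) else 0) ≤
      mean (fun _ : α ≃ Fin (Fintype.card α) => (1 : ℝ)) := by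
    refine mean_mono fun σ hσ => ?_
    have key : ∀ a ∈ A, ∀ a' ∈ A, (σ a : ℕ) < σ a' → dn a' σ = 0 → False := by
      intro a ha a' ha' hlt h0
      have h3 : a ∈ dnS a' σ := by
        rw [mem_dnS]
        refine ⟨hlt, fun w hw => ?_⟩
        exact LE_lt hσ ((hA a ha a' ha' w).2 hw)
      unfold dn at h0
      rw [Finset.card_eq_zero] at h0
      rw [h0] at h3
      exact absurd h3 (Finset.notMem_empty _)
    by_cases h3 : ∃ a ∈ A, dn a σ = 0
    · obtain ⟨a, ha, h0⟩ := h3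
      rw [Finset.sum_eq_single a]
      · rw [if_pos h0]
      · intro b hb hba
        rw [if_neg]
        intro hb0
        rcases lt_trichotomy (σ a : ℕ) (σ b) with h4 | h4 | h4
        · exact key a ha b hb h4 hb0
        · exact hba (val_inj (σ := σ) h4.symm)
        · exact key b hb a ha h4 h0
      · intro h; exact absurd ha h
    · push Not at h3
      rw [Finset.sum_eq_zero]
      · norm_num
      · intro a ha
        rw [if_neg (h3 a ha)]
  rw [mean_const] at h2
  exact h2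

/-- the pair inequality -/
lemma pair_ineq {x y : α} (hne : x ≠ y) (h : ∀ w, w < x ↔ w < y)
    (hN : 10000 ≤ Fintype.card α) (hb : pp (fun σ => gap x y σ < 0) ≤ 101 / 300) :
    hh x + (1066 / 10000 / ff y + 3316 / 10000) ≤ hh y := by
  have h1 : ¬ x ≤ y := fun h1 => lt_irrefl _ ((h x).2 (lt_of_le_of_ne h1 hne))
  have h2 : ¬ y ≤ x := fun h2 => lt_irrefl _ ((h y).1 (lt_of_le_of_ne h2 hne.symm))
  have hL := Npos (α := α)
  have hn : (10000 : ℝ) ≤ (Fintype.card α : ℝ) := by exact_mod_cast hN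
  set b := pp (fun σ : α ≃ Fin (Fintype.card α) => gap x y σ < 0) with hbdef
  set R := pp (fun σ : α ≃ Fin (Fintype.card α) => gap x y σ = 1) with hRdef
  have hb0 : 0 ≤ b := pp_nonneg _
  have hR0 : 0 ≤ R := pp_nonneg _
  have hg : pp (fun σ : α ≃ Fin (Fintype.card α) => 0 < gap x y σ) = 1 - b := pp_gap hne
  -- the reversed part
  have e1 : R * Ep y x ≤ b ^ 2 * (1 + 1 / 10000) := by
    have h3 := L1.t_L1 ASY.t_ASY α x y h1 h2
    have h4 : (nn (fun σ : α ≃ Fin (Fintype.card α) => gap x y σ = 1) : ℝ) =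
        R * (Y491.BF.LE α).card := by
      rw [hRdef]; unfold pp; field_simp
    have h5 : (nn (fun σ : α ≃ Fin (Fintype.card α) => gap x y σ < 0) : ℝ) =
        b * (Y491.BF.LE α).card := by
      rw [hbdef]; unfold pp; field_simp
    have h6 : Tp y x = Ep y x * (Y491.BF.LE α).card := by
      rw [Ep_eq]; field_simp
    rw [h4, h5, h6] at h3
    have h7 : R * Ep y x * (Fintype.card α : ℝ) ≤ b ^ 2 * (Fintype.card α + 1) := by
      have h8 : ((Y491.BF.LE α).card : ℝ) ^ 2 * (R * Ep y x * (Fintype.card α : ℝ)) ≤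
          ((Y491.BF.LE α).card : ℝ) ^ 2 * (b ^ 2 * (Fintype.card α + 1)) := by
        nlinarith
      exact le_of_mul_le_mul_left h8 (by positivity)
    have h9 : b ^ 2 * (Fintype.card α + 1) ≤ b ^ 2 * (1 + 1 / 10000) * (Fintype.card α : ℝ) := by
      have : (Fintype.card α : ℝ) + 1 ≤ (1 + 1 / 10000) * (Fintype.card α : ℝ) := by linarith
      calc b ^ 2 * (Fintype.card α + 1) ≤ b ^ 2 * ((1 + 1 / 10000) * (Fintype.card α : ℝ)) :=
            mul_le_mul_of_nonneg_left this (by positivity)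
        _ = _ := by ring
    exact le_of_mul_le_mul_right (h7.trans h9) (by linarith)
  -- the other part
  have e2 : (1 - b) ^ 2 ≤ R * (2 * Ep x y - (1 - b)) := by
    have h3 := bath_gap x y (fun w hw => (h w).2 hw)
    have h4 : (nn (fun σ : α ≃ Fin (Fintype.card α) => gap x y σ = 1) : ℝ) =
        R * (Y491.BF.LE α).card := by
      rw [hRdef]; unfold pp; field_simp
    have h5 : (nn (fun σ : α ≃ Fin (Fintype.card α) => 0 < gap x y σ) : ℝ) =
        (1 - b) * (Y491.BF.LE α).card := by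
      rw [← hg]; unfold pp; field_simp
    have h6 : Tp x y = Ep x y * (Y491.BF.LE α).card := by
      rw [Ep_eq]; field_simp
    rw [h4, h5, h6] at h3
    have h8 : ((Y491.BF.LE α).card : ℝ) ^ 2 * ((1 - b) ^ 2) ≤
        ((Y491.BF.LE α).card : ℝ) ^ 2 * (R * (2 * Ep x y - (1 - b))) := by
      nlinarith
    exact le_of_mul_le_mul_left h8 (by positivity)
  have e3 : R * (2 * (Ep x y - Ep y x) - (1 - b)) ≥ 2 * (1066 / 10000) := by
    have h3 : (1 - b) ^ 2 - 2 * (b ^ 2 * (1 + 1 / 10000)) ≥ 2 * (1066 / 10000) := by nlinarith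
    nlinarith
  have hRpos : 0 < R := by
    rcases hR0.eq_or_lt with h3 | h3
    · rw [← h3] at e3
      norm_num at e3
    · exact h3
  have hRf : R ≤ ff y := by
    have h3 : nn (fun σ : α ≃ Fin (Fintype.card α) => gap x y σ = 1) =
        nn (fun σ => gap x y σ = -1) := adj_symm SH.t_SWAP h1 h2
    rw [hRdef]
    unfold ff pp
    rw [h3]
    exact div_le_div_of_nonneg_right (by exact_mod_cast nn_adj_le x y) hL.le
  have hfy := ff_pos y
  have e4 : 2 * (1066 / 10000) / ff y ≤ 2 * (Ep x y - Ep y x) - (1 - b) := by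
    have h3 : 2 * (1066 / 10000) / R ≤ 2 * (Ep x y - Ep y x) - (1 - b) := by
      rw [div_le_iff₀ hRpos]
      linarith
    refine le_trans ?_ h3
    exact div_le_div_of_nonneg_left (by norm_num) hRpos hRf
  have e5 := HH_hh h
  rw [HH_sub] at e5
  have e6 : 2 * (1066 / 10000) / ff y = 2 * (1066 / 10000 / ff y) := by ring
  linarith

/-- adding up the pair inequalities -/
lemma chain_ineq (A : Finset α) (hA : ∀ a ∈ A, ∀ a' ∈ A, ∀ w, w < a ↔ w < a')
    (hN : 10000 ≤ Fintype.card α)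
    (hb : ∀ x ∈ A, ∀ y ∈ A, x ≠ y → pp (fun σ => gap x y σ < 0) ≤ 101 / 300 ∨
      pp (fun σ => gap y x σ < 0) ≤ 101 / 300) (n : ℕ) :
    ∀ S : Finset α, S ⊆ A → S.card = n + 1 → ∃ a₀ ∈ S, ∃ a₁ ∈ S,
      hh a₀ + ∑ a ∈ S.erase a₀, (1066 / 10000 / ff a + 3316 / 10000) ≤ hh a₁ := by
  induction n with
  | zero =>
    intro S _ hS
    obtain ⟨a, rfl⟩ := Finset.card_eq_one.mp hS
    exact ⟨a, by simp, a, by simp, by simp⟩
  | succ n ih =>
    intro S hSA hS
    have hne : S.Nonempty := Finset.card_pos.mp (by omega)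
    obtain ⟨y, hy, hmax⟩ := Finset.exists_max_image S hh hne
    obtain ⟨a₀, h0, a₁, h1, hle⟩ := ih (S.erase y) ((Finset.erase_subset _ _).trans hSA) (by
      rw [Finset.card_erase_of_mem hy]; omega)
    have h0' := Finset.mem_of_mem_erase h0
    have h1' := Finset.mem_of_mem_erase h1
    have hy0 : a₀ ≠ y := Finset.ne_of_mem_erase h0
    have hy1 : a₁ ≠ y := Finset.ne_of_mem_erase h1
    refine ⟨a₀, h0', y, hy, ?_⟩
    have hp : hh a₁ + (1066 / 10000 / ff y + 3316 / 10000) ≤ hh y := by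
      rcases hb a₁ (hSA h1') y (hSA hy) hy1 with h | h
      · exact pair_ineq hy1 (hA a₁ (hSA h1') y (hSA hy)) hN h
      · have h2 := pair_ineq hy1.symm (hA y (hSA hy) a₁ (hSA h1')) hN h
        have h3 := hmax a₁ h1'
        have h4 := ff_pos a₁
        have h5 : 0 < 1066 / 10000 / ff a₁ := by positivity
        linarith
    have he : S.erase a₀ = insert y ((S.erase y).erase a₀) := by
      ext z
      simp only [mem_erase, mem_insert]
      constructor
      · rintro ⟨h2, h3⟩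
        by_cases hz : z = y
        · exact Or.inl hz
        · exact Or.inr ⟨h2, hz, h3⟩
      · rintro (rfl | ⟨h2, _, h3⟩)
        · exact ⟨hy0.symm, hy⟩
        · exact ⟨h2, h3⟩
    rw [he, Finset.sum_insert (by simp)]
    linarith

/-- **Main inequality.** -/
theorem anti_core (A : Finset α) (hA : ∀ a ∈ A, ∀ a' ∈ A, ∀ w, w < a ↔ w < a')
    (hN : 10000 ≤ Fintype.card α) (h3 : 3 ≤ A.card)
    (hb : ∀ x ∈ A, ∀ y ∈ A, x ≠ y → pp (fun σ => gap x y σ < 0) ≤ 101 / 300 ∨
      pp (fun σ => gap y x σ < 0) ≤ 101 / 300) :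
    ∃ a ∈ A, (A.card - 1) * (A.card + 7) < 5 * inc a := by
  obtain ⟨k, hk⟩ : ∃ k, A.card = k + 1 := ⟨A.card - 1, by omega⟩
  obtain ⟨a₀, h0, a₁, h1, hle⟩ := chain_ineq A hA hN hb k A (Finset.Subset.refl _) hk
  refine ⟨a₁, h1, ?_⟩
  have hsum := sum_ff_le A hA
  have hf0 := ff_pos a₀
  have hh0 := hh_ge a₀
  have hinc : 2 * hh a₁ ≤ inc a₁ := mean_dn_le a₁
  have hk2 : 2 ≤ k := by omega
  have hkr : (2 : ℝ) ≤ k := by exact_mod_cast hk2
  have hcard : (A.erase a₀).card = k := by rw [Finset.card_erase_of_mem h0]; omega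
  -- Sedrakyan
  have hS := Finset.sq_sum_div_le_sum_sq_div (s := A)
    (f := fun a => if a = a₀ then (1 : ℝ) else 4617 / 10000) (g := fun a => ff a)
    (fun a _ => ff_pos a)
  have e1 : ∑ a ∈ A, (if a = a₀ then (1 : ℝ) else 4617 / 10000) = 1 + 4617 / 10000 * k := by
    rw [← Finset.add_sum_erase A _ h0, if_pos rfl, Finset.sum_congr rfl (g := fun _ => (4617 / 10000 : ℝ)),
      Finset.sum_const, hcard, nsmul_eq_mul]
    · ring
    · intro a ha
      rw [if_neg (Finset.ne_of_mem_erase ha)]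
  have e2 : ∑ a ∈ A, (if a = a₀ then (1 : ℝ) else 4617 / 10000) ^ 2 / ff a =
      1 / ff a₀ + ∑ a ∈ A.erase a₀, (4617 / 10000) ^ 2 / ff a := by
    rw [← Finset.add_sum_erase A _ h0, if_pos rfl]
    congr 1
    · norm_num
    · refine Finset.sum_congr rfl fun a ha => ?_
      rw [if_neg (Finset.ne_of_mem_erase ha)]
  rw [e1, e2] at hS
  have hsum0 : 0 < ∑ a ∈ A, ff a := Finset.sum_pos (fun a _ => ff_pos a) ⟨a₀, h0⟩
  have e3 : (1 + 4617 / 10000 * (k : ℝ)) ^ 2 ≤ (1 + 4617 / 10000 * (k : ℝ)) ^ 2 / ∑ a ∈ A, ff a := by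
    rw [le_div_iff₀ hsum0]
    nlinarith [sq_nonneg (1 + 4617 / 10000 * (k : ℝ))]
  have e4 : ∑ a ∈ A.erase a₀, (4617 / 10000 : ℝ) ^ 2 / ff a ≤
      ∑ a ∈ A.erase a₀, 2 * (1066 / 10000 / ff a) := by
    refine Finset.sum_le_sum fun a _ => ?_
    have := ff_pos a
    have h5 : 2 * (1066 / 10000 / ff a) = 2 * (1066 / 10000) / ff a := by ring
    rw [h5]
    exact div_le_div_of_nonneg_right (by norm_num) this.le
  have e5 : ∑ a ∈ A.erase a₀, (1066 / 10000 / ff a + 3316 / 10000) =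
      ∑ a ∈ A.erase a₀, (1066 / 10000 / ff a) + 3316 / 10000 * (k : ℝ) := by
    rw [Finset.sum_add_distrib, Finset.sum_const, hcard, nsmul_eq_mul]
    ring
  rw [← Finset.mul_sum] at e4
  rw [e5] at hle
  have e6 : (1 + 4617 / 10000 * (k : ℝ)) ^ 2 - 1 + 2 * (3316 / 10000 * (k : ℝ)) ≤ inc a₁ := by
    linarith
  have e7 : ((k : ℝ) * (k + 8)) < 5 * inc a₁ := by nlinarith
  rw [hk]
  have e8 : k * (k + 8) < 5 * inc a₁ := by exact_mod_cast e7
  have : k + 1 - 1 = k := by omega
  rw [this]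
  exact e8

end Pool.Agent.U396.H2
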