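import Mathlib
import Pool.Agent.U396.H2.Anti
import Pool.Agent.TH494.KS_LEX
import Pool.Agent.H13R3.WB.Lin

/-!
# Posets with many elements with the same lower elements
-/

set_option autoImplicit false
set_option linter.unusedSectionVars false

open Finset
open scoped Classical

namespace Pool.Agent.U396.H2

open Pool.Agent.Y491.BF Pool.Agent.H13R3.WB Pool.Agent.TH161.LW

lemma pp_eq_eP {α : Type} [Fintype α] [PartialOrder α] (x y : α) :
    pp (fun σ => gap x y σ < 0) = (eP α y x : ℝ) / eN α := by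
  unfold pp
  rw [LE_card, eP_eq]
  congr 2
  unfold nn Y491.BF.LE
  rw [Finset.filter_filter]
  congr 1
  ext σ
  simp only [Finset.mem_filter, Finset.mem_univ, true_and]
  constructor
  · rintro ⟨h1, h2⟩
    refine ⟨h1, ?_⟩
    rw [Fin.lt_def]
    unfold gap at h2
    omega
  · rintro ⟨h1, h2⟩
    refine ⟨h1, ?_⟩
    rw [Fin.lt_def] at h2
    unfold gap
    omega

lemma prob_eq' (P : Type) [Fintype P] [PartialOrder P] (x y : P) :
    prob P x y = (eP P x y : ℝ) / eN P := by
  unfold prob eP eN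
  have h : ∀ f : P ≃ Fin (Fintype.card P), Monotone ⇑f ↔ StrictMono ⇑f := fun f =>
    ⟨fun h => h.strictMono_of_injective f.injective, fun h => h.monotone⟩
  simp only [h]

/-- **Posets with many elements with the same lower elements.** -/
theorem low_gap (P : Type) [Fintype P] [PartialOrder P] (A : Finset P) (h3 : 3 ≤ A.card)
    (hA : ∀ a ∈ A, ∀ a' ∈ A, ∀ w, w < a ↔ w < a')
    (hinc : ∀ a ∈ A, 5 * inc a ≤ (A.card - 1) * (A.card + 7)) : 1 / 3 + 1 / 300 ≤ balance P := by
  by_contra hcon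
  push Not at hcon
  have hne : A.Nonempty := Finset.card_pos.mp (by omega)
  haveI : Nonempty P := ⟨hne.choose⟩
  obtain ⟨Q, _, _, ι, hι, hle, hcard, hout, hlow, hprob⟩ := Pool.Agent.TH494.KS_LEX.t_LEX P 5000
  have hlt : ∀ a b : P, ι a < ι b ↔ a < b := by
    intro a b
    rw [lt_iff_le_not_ge, lt_iff_le_not_ge, hle, hle]
  have hin : ∀ a b : Q, ¬ a ≤ b → ¬ b ≤ a → ∃ p, ι p = a := by
    intro a b h1 h2
    by_contra h
    rcases hout a h b with h3 | h3
    · exact h1 h3
    · exact h2 h3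
  -- incomparable elements of `A`
  have hinA : ∀ a ∈ A, ∀ a' ∈ A, a ≠ a' → ¬ a ≤ a' := by
    intro a ha a' ha' hne h
    exact lt_irrefl _ ((hA a ha a' ha' a).2 (lt_of_le_of_ne h hne))
  have hA' : ∀ a ∈ A.map ⟨ι, hι⟩, ∀ a' ∈ A.map ⟨ι, hι⟩, ∀ w, w < a → w < a' := by
    intro a ha a' ha' w hw
    rw [Finset.mem_map] at ha ha'
    obtain ⟨p, hp, rfl⟩ := ha
    obtain ⟨p', hp', rfl⟩ := ha'
    change w < ι p at hw
    change w < ι p'
    by_cases hpp : p = p'
    · rw [← hpp]; exact hw
    by_cases hr : w ∈ Set.range ι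
    · obtain ⟨q, rfl⟩ := hr
      rw [hlt] at hw ⊢
      exact (hA p hp p' hp' q).1 hw
    · rcases hout w (by simpa using hr) (ι p') with h4 | h4
      · refine lt_of_le_of_ne h4 ?_
        rintro rfl
        exact hr ⟨p', rfl⟩
      · exfalso
        have h5 : ι p' < ι p := lt_of_le_of_lt h4 hw
        rw [hlt] at h5
        exact hinA p' hp' p hp (Ne.symm hpp) h5.le
  obtain ⟨a, ha, hlt'⟩ := anti_core (A.map ⟨ι, hι⟩)
    (fun a ha a' ha' w => ⟨hA' a ha a' ha' w, hA' a' ha' a ha w⟩) (by omega)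
    (by rw [Finset.card_map]; exact h3) (by
      intro x hx y hy hxy
      rw [Finset.mem_map] at hx hy
      obtain ⟨p, hp, rfl⟩ := hx
      obtain ⟨q, hq, rfl⟩ := hy
      change pp (fun σ => gap (ι p) (ι q) σ < 0) ≤ 101 / 300 ∨
        pp (fun σ => gap (ι q) (ι p) σ < 0) ≤ 101 / 300
      rw [pp_eq_eP, pp_eq_eP, hprob, hprob, ← prob_eq', ← prob_eq']
      have hb : min (prob P p q) (prob P q p) ≤ balance P := by
        unfold balance
        exact le_ciSup (f := fun p : P × P => min (prob P p.1 p.2) (prob P p.2 p.1))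
          (Set.finite_range _).bddAbove (p, q)
      rcases min_le_iff.mp hb with h4 | h4
      · right; linarith
      · left; linarith)
  rw [Finset.card_map] at hlt'
  rw [Finset.mem_map] at ha
  obtain ⟨p, hp, rfl⟩ := ha
  have h4 := hinc p hp
  have h5 : inc (ι p) ≤ inc p := by
    unfold inc
    calc (univ.filter fun w : Q => ¬ w ≤ ι p ∧ ¬ ι p ≤ w).card
        ≤ ((univ.filter fun w : P => ¬ w ≤ p ∧ ¬ p ≤ w).image ι).card := by
          refine Finset.card_le_card fun w hw => ?_
          rw [Finset.mem_filter] at hw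
          obtain ⟨q, rfl⟩ := hin w (ι p) hw.2.1 hw.2.2
          rw [Finset.mem_image]
          refine ⟨q, ?_, rfl⟩
          rw [Finset.mem_filter]
          rw [hle, hle] at hw
          exact ⟨Finset.mem_univ _, hw.2⟩
      _ ≤ _ := Finset.card_image_le
  change (A.card - 1) * (A.card + 7) < 5 * inc (ι p) at hlt'
  omega

end Pool.Agent.U396.H2
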